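import Pool.Agent.helper70.FI4.SpecK

/-!
# Project fi4 (MP_baa4d7_al), block K: row KAV
-/

set_option autoImplicit false

namespace Pool.Agent.FI4

open Pool.Agent.helper58.DC Pool.Agent.DI Pool.Agent.GR Pool.Agent.OB Pool.Agent.DR Pool.Agent.FI Pool.Agent.FI3

section

variable {G : Type} [Group G] [Finite G]

open Classical in
/-- the averaging element -/
noncomputable def KAV_z (R : Subgroup G) : G → ℂ := fun x => if x ∈ R then ((Nat.card R : ℂ))⁻¹ else 0

omit [Finite G] in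
theorem KAV_fs (R : Subgroup G) (f : G → ℂ) :
    ∑ᶠ x, KAV_z R x * f x = ∑ᶠ x ∈ (R : Set G), ((Nat.card R : ℂ))⁻¹ * f x := by
  rw [finsum_mem_def]
  refine finsum_congr fun x => ?_
  unfold KAV_z
  by_cases hx : x ∈ R
  · rw [if_pos hx, Set.indicator_of_mem (show x ∈ (R : Set G) from hx)]
  · rw [if_neg hx, Set.indicator_of_notMem (show x ∉ (R : Set G) from hx), zero_mul]

theorem KAV_mul (R : Subgroup G) (f : G → ℂ) (c : ℂ) :
    ∑ᶠ x ∈ (R : Set G), c * f x = c * ∑ᶠ x ∈ (R : Set G), f x := by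
  rw [finsum_mem_eq_finite_toFinset_sum _ (Set.toFinite (R : Set G)),
    finsum_mem_eq_finite_toFinset_sum _ (Set.toFinite (R : Set G)), Finset.mul_sum]

theorem KAV_const (R : Subgroup G) (c : ℂ) :
    ∑ᶠ _x ∈ (R : Set G), c = (Nat.card R : ℂ) * c := by
  rw [finsum_mem_eq_finite_toFinset_sum _ (Set.toFinite (R : Set G)), Finset.sum_const, nsmul_eq_mul]
  congr 1
  rw [← Set.ncard_eq_toFinset_card (R : Set G) (Set.toFinite _)]
  norm_cast

theorem KAV_card (R : Subgroup G) : (Nat.card R : ℂ) ≠ 0 := by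
  exact_mod_cast Nat.card_pos.ne'

omit [Finite G] in
theorem KAV_cf (R H : Subgroup G) (hRH : R ≤ H) (hn : ∀ r ∈ R, ∀ h ∈ H, h * r * h⁻¹ ∈ R) :
    CF H (KAV_z R) := by
  refine ⟨fun h hh x => ?_, fun x hx => ?_⟩
  · have h1 : h * x * h⁻¹ ∈ R ↔ x ∈ R := by
      constructor
      · intro h2
        have h3 := hn _ h2 h⁻¹ (H.inv_mem hh)
        have h4 : h⁻¹ * (h * x * h⁻¹) * h⁻¹⁻¹ = x := by group
        rwa [h4] at h3
      · intro h2
        exact hn x h2 h hh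
    unfold KAV_z
    by_cases hx : x ∈ R
    · rw [if_pos hx, if_pos (h1.2 hx)]
    · rw [if_neg hx, if_neg fun h2 => hx (h1.1 h2)]
  · unfold KAV_z
    rw [if_neg fun h => hx (hRH h)]

theorem KAV_idem (R : Subgroup G) : cv (KAV_z R) (KAV_z R) = KAV_z R := by
  funext g
  unfold cv
  rw [KAV_fs R (fun x => KAV_z R (x⁻¹ * g)), KAV_mul]
  have h1 : ∑ᶠ x ∈ (R : Set G), KAV_z R (x⁻¹ * g) = ∑ᶠ _x ∈ (R : Set G), KAV_z R g := by
    refine finsum_mem_congr rfl fun x hx => ?_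
    have h2 : x⁻¹ * g ∈ R ↔ g ∈ R := Subgroup.mul_mem_cancel_left R (R.inv_mem hx)
    unfold KAV_z
    by_cases hx : g ∈ R
    · rw [if_pos hx, if_pos (h2.2 hx)]
    · rw [if_neg hx, if_neg fun h3 => hx (h2.1 h3)]
  rw [h1, KAV_const, ← mul_assoc, inv_mul_cancel₀ (KAV_card R), one_mul]

omit [Finite G] in
/-- right and left averages -/
theorem KAV_swap (R H : Subgroup G) (hn : ∀ r ∈ R, ∀ h ∈ H, h * r * h⁻¹ ∈ R) (ψ : G → ℂ) (g : G)
    (hg : g ∈ H) : ∑ᶠ r ∈ (R : Set G), ψ (r * g) = ∑ᶠ r ∈ (R : Set G), ψ (g * r) := by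
  refine finsum_mem_eq_of_bijOn (fun r => g⁻¹ * r * g) ⟨?_, ?_, ?_⟩ ?_
  · intro r hr
    have h1 := hn r hr g⁻¹ (H.inv_mem hg)
    rwa [inv_inv] at h1
  · intro a _ b _ hab
    have h1 : g⁻¹ * a * g = g⁻¹ * b * g := hab
    exact mul_left_cancel (mul_right_cancel h1)
  · intro r hr
    refine ⟨g * r * g⁻¹, hn r hr g hg, ?_⟩
    show g⁻¹ * (g * r * g⁻¹) * g = r
    group
  · intro r _
    have h1 : g * (g⁻¹ * r * g) = r * g := by group
    rw [h1]

end

open Classical in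
theorem KAV (hEVM : EVM_stmt) (hCVF : CVF_stmt) (hCCI : CCI_stmt) : KAV_stmt := by
  intro G _ _ R H hRH hn ψ hψ g
  have hout : ∀ x, x ∉ H → ψ x = 0 := hψ.1
  by_cases hinv : ∀ r ∈ R, ∀ x, ψ (r * x) = ψ x
  · rw [if_pos hinv, ← KAV_const R (ψ g)]
    exact finsum_mem_congr rfl fun r hr => hinv r hr g
  · rw [if_neg hinv]
    by_cases hg : g ∈ H
    swap
    · have h1 : ∑ᶠ r ∈ (R : Set G), ψ (r * g) = ∑ᶠ r ∈ (R : Set G), (0 : ℂ) := by
        refine finsum_mem_congr rfl fun r hr => ?_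
        apply hout
        intro h2
        exact hg ((Subgroup.mul_mem_cancel_left H (hRH hr)).1 h2)
      rw [h1, KAV_const, mul_zero]
    -- the scalar
    have hcf := KAV_cf R H hRH hn
    have hid : cc ψ (KAV_z R) * cc ψ (KAV_z R) = cc ψ (KAV_z R) := by
      rw [← (hCCI G H ψ hψ).2.1 _ _ hcf hcf, KAV_idem]
    have hev : ∀ y ∈ H, ∑ᶠ r ∈ (R : Set G), ψ (r * y) = (Nat.card R : ℂ) * (cc ψ (KAV_z R) * ψ y) := by
      intro y hy
      have h1 := (hEVM G H ψ hψ (KAV_z R) hcf y hy).2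
      have h2 : ev ψ (KAV_z R) y = ∑ᶠ x, KAV_z R x * ψ (y * x) := rfl
      rw [h2, KAV_fs R (fun x => ψ (y * x)), KAV_mul] at h1
      rw [← h1, KAV_swap R H hn ψ y hy, ← mul_assoc, mul_inv_cancel₀ (KAV_card R), one_mul]
    have h01 : cc ψ (KAV_z R) = 0 ∨ cc ψ (KAV_z R) = 1 := by
      have h3 : cc ψ (KAV_z R) * (cc ψ (KAV_z R) - 1) = 0 := by
        rw [mul_sub, hid, mul_one, sub_self]
      rcases mul_eq_zero.1 h3 with h4 | h4
      · exact Or.inl h4
      · exact Or.inr (sub_eq_zero.1 h4)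
    rcases h01 with h0 | h1
    · rw [hev g hg, h0, zero_mul, mul_zero]
    · exfalso
      apply hinv
      intro r₀ hr₀ x
      by_cases hx : x ∈ H
      · have hrx : r₀ * x ∈ H := H.mul_mem (hRH hr₀) hx
        have e1 := hev x hx
        have e2 := hev (r₀ * x) hrx
        have e3 : ∑ᶠ r ∈ (R : Set G), ψ (r * (r₀ * x)) = ∑ᶠ r ∈ (R : Set G), ψ (r * x) := by
          refine finsum_mem_eq_of_bijOn (fun r => r * r₀) ⟨?_, ?_, ?_⟩ ?_
          · intro r hr
            exact R.mul_mem hr hr₀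
          · intro a _ b _ hab
            exact mul_right_cancel hab
          · intro r hr
            refine ⟨r * r₀⁻¹, R.mul_mem hr (R.inv_mem hr₀), ?_⟩
            show r * r₀⁻¹ * r₀ = r
            group
          · intro r _
            rw [mul_assoc]
        rw [e3, e1, h1, one_mul, one_mul] at e2
        exact (mul_left_cancel₀ (KAV_card R) e2).symm
      · rw [hout x hx, hout (r₀ * x)]
        intro h2
        exact hx ((Subgroup.mul_mem_cancel_left H (hRH hr₀)).1 h2)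

end Pool.Agent.FI4
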