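import Pool.Agent.helper70.FI4.SpecK

/-!
# Project fi4 (MP_baa4d7_al), block K: row KLE
-/

set_option autoImplicit false

namespace Pool.Agent.FI4

open Pool.Agent.helper58.DC Pool.Agent.DI Pool.Agent.GR Pool.Agent.OB Pool.Agent.DR Pool.Agent.FI Pool.Agent.FI3

/-! ## Finite sums -/

theorem KLE_const {α : Type} [Finite α] (s : Set α) (c : ℂ) :
    ∑ᶠ _x ∈ s, c = (s.ncard : ℂ) * c := by
  rw [finsum_mem_eq_finite_toFinset_sum _ (Set.toFinite s), Finset.sum_const, nsmul_eq_mul,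
    ← Set.ncard_eq_toFinset_card s (Set.toFinite s)]

open Classical in
theorem KLE_sep {α : Type} (s : Set α) (P : α → Prop) (f : α → ℂ) :
    ∑ᶠ x ∈ {x : α | x ∈ s ∧ P x}, f x = ∑ᶠ x ∈ s, (if P x then f x else 0) := by
  rw [finsum_mem_def, finsum_mem_def]
  refine finsum_congr fun x => ?_
  by_cases hx : x ∈ s
  · by_cases hP : P x
    · rw [Set.indicator_of_mem (show x ∈ {x : α | x ∈ s ∧ P x} from ⟨hx, hP⟩), Set.indicator_of_mem hx, if_pos hP]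
    · rw [Set.indicator_of_notMem (fun h : x ∈ {x : α | x ∈ s ∧ P x} => hP h.2), Set.indicator_of_mem hx, if_neg hP]
  · rw [Set.indicator_of_notMem (fun h : x ∈ {x : α | x ∈ s ∧ P x} => hx h.1), Set.indicator_of_notMem hx]

/-- the trace -/
theorem KLE_tr (hB2 : B2_stmt) {G : Type} [Group G] [Finite G] (p : ℕ) (H : Subgroup G) (S : Set (G → ℂ))
    (hS : S ⊆ IrrOn H) :
    ∑ᶠ ψ ∈ S, EE p H ψ ψ = (Nat.card H : ℂ)⁻¹ * ∑ᶠ v ∈ {v : G | v ∈ H ∧ PReg p v}, Sf S v v := by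
  have hfin : S.Finite := (hB2 G H).1.subset hS
  have h1 : ∑ᶠ ψ ∈ S, EE p H ψ ψ =
      ∑ᶠ ψ ∈ S, (Nat.card H : ℂ)⁻¹ * ∑ᶠ v ∈ {v : G | v ∈ H ∧ PReg p v}, ψ v * ψ v⁻¹ := by
    refine finsum_mem_congr rfl fun ψ _ => ?_
    unfold EE
    rw [div_eq_inv_mul]
  rw [h1, ← mul_finsum_mem, finsum_mem_comm _ hfin (Set.toFinite _)]
  rfl

/-- the decomposition of an element into its `p`-part and its `p`-regular part -/
theorem KLE_dec {G : Type} [Group G] [Finite G] {p : ℕ} (hp : p.Prime) (g : G) :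
    ∃ y v : G, y * v = g ∧ PEl p y ∧ PReg p v ∧ Commute y v ∧ y ∈ Subgroup.zpowers g ∧
      v ∈ Subgroup.zpowers g := by
  have hn : orderOf g ≠ 0 := (orderOf_pos g).ne'
  obtain ⟨a, m, hm, hem⟩ := Nat.exists_eq_pow_mul_and_not_dvd hn p hp.ne_one
  have hcop : Nat.Coprime (p ^ a) m := Nat.Coprime.pow_left a ((Nat.Prime.coprime_iff_not_dvd hp).2 hm)
  obtain ⟨e, he1, he2⟩ := Nat.chineseRemainder hcop 1 0
  obtain ⟨f, hf1, hf2⟩ := Nat.chineseRemainder hcop 0 1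
  have hme : m ∣ e := (Nat.modEq_zero_iff_dvd).1 he2
  have hpf : p ^ a ∣ f := (Nat.modEq_zero_iff_dvd).1 hf1
  have hef : e + f ≡ 1 [MOD orderOf g] := by
    rw [hem]
    refine (Nat.modEq_and_modEq_iff_modEq_mul hcop).mp ⟨?_, ?_⟩
    · simpa using he1.add hf1
    · simpa using he2.add hf2
  refine ⟨g ^ e, g ^ f, ?_, ⟨a, ?_⟩, ?_, Commute.pow_pow_self g e f, ?_, ?_⟩
  · rw [← pow_add]
    have h1 : g ^ (e + f) = g ^ 1 := pow_eq_pow_iff_modEq.2 hef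
    rw [h1, pow_one]
  · rw [← pow_mul]
    apply orderOf_dvd_iff_pow_eq_one.1
    rw [hem, mul_comm]
    exact Nat.mul_dvd_mul_right hme _
  · unfold PReg
    intro hdvd
    apply hm
    refine dvd_trans hdvd ?_
    apply orderOf_dvd_of_pow_eq_one
    rw [← pow_mul]
    apply orderOf_dvd_iff_pow_eq_one.1
    rw [hem]
    exact Nat.mul_dvd_mul_right hpf m
  · exact Subgroup.npow_mem_zpowers g e
  · exact Subgroup.npow_mem_zpowers g f

section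

variable {G Gb : Type} [Group G] [Finite G] [Group Gb] [Finite Gb]

/-! ## The sets -/

theorem KLE_bij (hKIN : KIN_stmt) {p : ℕ} {R : Subgroup G} {π : G →* Gb} (hQ : Qn p R π) (Hb : Subgroup Gb)
    (S : Set (G → ℂ)) (hS : S ⊆ IrrOn (Hb.comap π)) :
    Set.BijOn (fun f : Gb → ℂ => fun g => f (π g)) (dn π Hb S)
      {ψ | ψ ∈ S ∧ ∀ r ∈ R, ∀ x, ψ (r * x) = ψ x} := by
  obtain ⟨k1, k2, k3, k4⟩ := hKIN p G Gb R π hQ
  refine ⟨?_, ?_, ?_⟩
  · intro f hf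
    exact ⟨hf.2, fun r hr x => k4 f r hr x⟩
  · intro f _ f' _ hff
    exact k1 f f' hff
  · rintro ψ ⟨hψ, hinv⟩
    obtain ⟨f, hf, hff⟩ := k3 Hb ψ (hS hψ) hinv
    refine ⟨f, ⟨hf, ?_⟩, hff⟩
    have h1 : (fun g => f (π g)) = ψ := hff
    show (fun g => f (π g)) ∈ S
    rw [h1]
    exact hψ

open Classical in
theorem KLE_A1 (hKIN : KIN_stmt) {p : ℕ} {R : Subgroup G} {π : G →* Gb} (hQ : Qn p R π) (Hb : Subgroup Gb)
    (S : Set (G → ℂ)) (hS : S ⊆ IrrOn (Hb.comap π)) (v : G) :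
    Sf (dn π Hb S) (π v) (π v) =
      ∑ᶠ ψ ∈ S, (if (∀ r ∈ R, ∀ x, ψ (r * x) = ψ x) then ψ v * ψ v⁻¹ else 0) := by
  rw [← KLE_sep S (fun ψ => ∀ r ∈ R, ∀ x, ψ (r * x) = ψ x) (fun ψ => ψ v * ψ v⁻¹)]
  unfold Sf
  refine finsum_mem_eq_of_bijOn (fun f : Gb → ℂ => fun g => f (π g)) (KLE_bij hKIN hQ Hb S hS) ?_
  intro f _
  show f (π v) * f (π v)⁻¹ = f (π v) * f (π v⁻¹)
  rw [map_inv]

theorem KLE_A2 (hKIN : KIN_stmt) (hKAV : KAV_stmt) (hB2 : B2_stmt) {p : ℕ} {R : Subgroup G} {π : G →* Gb}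
    (hQ : Qn p R π) (Hb : Subgroup Gb)
    (S : Set (G → ℂ)) (hS : S ⊆ IrrOn (Hb.comap π)) (hRH : R ≤ Hb.comap π)
    (hn : ∀ r ∈ R, ∀ g : G, g * r * g⁻¹ ∈ R) (v : G) :
    (Nat.card R : ℂ) * Sf (dn π Hb S) (π v) (π v) = ∑ᶠ r ∈ (R : Set G), Sf S v (v * r) := by
  classical
  have hfin : S.Finite := (hB2 G (Hb.comap π)).1.subset hS
  rw [KLE_A1 hKIN hQ Hb S hS v, mul_finsum_mem]
  have h1 : ∑ᶠ ψ ∈ S, (Nat.card R : ℂ) * (if (∀ r ∈ R, ∀ x, ψ (r * x) = ψ x) then ψ v * ψ v⁻¹ else 0) =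
      ∑ᶠ ψ ∈ S, ∑ᶠ r ∈ (R : Set G), ψ v * ψ (r * v⁻¹) := by
    refine finsum_mem_congr rfl fun ψ hψ => ?_
    rw [← mul_finsum_mem, hKAV G R (Hb.comap π) hRH (fun r hr h _ => hn r hr h) ψ (hS hψ) v⁻¹]
    by_cases hinv : ∀ r ∈ R, ∀ x, ψ (r * x) = ψ x
    · rw [if_pos hinv, if_pos hinv]
      ring
    · rw [if_neg hinv, if_neg hinv, mul_zero, mul_zero]
  rw [h1, finsum_mem_comm _ hfin (Set.toFinite _)]
  refine finsum_mem_eq_of_bijOn (fun r => r⁻¹) ⟨?_, ?_, ?_⟩ ?_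
  · intro r hr
    exact R.inv_mem hr
  · intro a _ b _ hab
    exact inv_injective hab
  · intro r hr
    exact ⟨r⁻¹, R.inv_mem hr, inv_inv r⟩
  · intro r _
    show ∑ᶠ ψ ∈ S, ψ v * ψ (r * v⁻¹) = Sf S v (v * r⁻¹)
    unfold Sf
    refine finsum_mem_congr rfl fun ψ _ => ?_
    rw [mul_inv_rev, inv_inv]

theorem KLE_A3 (hKIN : KIN_stmt) (hKAV : KAV_stmt) (hKPR : KPR_stmt) (hBR0 : BR0_stmt) (hSFC : SFC_stmt)
    (hB2 : B2_stmt) {p : ℕ} {M : Ideal (integralClosure ℤ ℂ)} (hM : Setup p M) {R : Subgroup G}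
    {π : G →* Gb} (hQ : Qn p R π) (Hb : Subgroup Gb)
    (S : Set (G → ℂ)) (hS : BC M (Hb.comap π) S) (hRH : R ≤ Hb.comap π)
    (hn : ∀ r ∈ R, ∀ g : G, g * r * g⁻¹ ∈ R) (v : G) (hv : v ∈ Hb.comap π) (hvr : PReg p v) :
    (Nat.card R : ℂ) * Sf (dn π Hb S) (π v) (π v) =
      ({r : G | r ∈ R ∧ PReg p (v * r)}.ncard : ℂ) * Sf S v v := by
  classical
  have : Fact p.Prime := ⟨hM.pr⟩
  rw [KLE_A2 hKIN hKAV hB2 hQ Hb S hS.sub hRH hn v, ← KLE_const]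
  refine Eq.trans ?_ (KLE_sep (R : Set G) (fun r => PReg p (v * r)) (fun _ => Sf S v v)).symm
  refine finsum_mem_congr rfl fun r hr => ?_
  have hrH : r ∈ Hb.comap π := hRH hr
  have hvrH : v * r ∈ Hb.comap π := (Hb.comap π).mul_mem hv hrH
  by_cases hreg : PReg p (v * r)
  · rw [if_pos hreg]
    obtain ⟨s, hs, hvs⟩ := (hKPR p G Gb R π hQ).2.2 v hvr r hr hreg
    rw [hvs]
    exact ((hSFC G (Hb.comap π) S hS.sub).1 v v s (hRH hs)).2
  · rw [if_neg hreg]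
    obtain ⟨y, w, hyw, hy, hw, hc, hyz, hwz⟩ := KLE_dec hM.pr (v * r)
    have hyH : y ∈ Hb.comap π := (Subgroup.zpowers_le.2 hvrH) hyz
    have hwH : w ∈ Hb.comap π := (Subgroup.zpowers_le.2 hvrH) hwz
    have hy1 : y ≠ 1 := by
      rintro rfl
      rw [one_mul] at hyw
      exact hreg (hyw ▸ hw)
    have h1 := hBR0 p M hM G (Hb.comap π) S hS 1 (Hb.comap π).one_mem v hv y hyH w hwH
      ⟨0, one_pow _⟩ hy hvr hw (Commute.one_left v) hc ?_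
    · rw [one_mul, hyw] at h1
      exact h1
    · intro h _ h2
      apply hy1
      rw [← h2]
      group

/-! ## `dn` is a union of blocks -/

theorem KLE_fib (π : G →* Gb) (z : G → ℂ) (f : Gb → ℂ) :
    ∑ᶠ x, z x * f (π x) = ∑ᶠ y, (∑ᶠ x ∈ {x : G | π x = y}, z x) * f y := by
  classical
  have := Fintype.ofFinite G
  have := Fintype.ofFinite Gb
  rw [finsum_eq_sum_of_fintype, finsum_eq_sum_of_fintype,
    ← Finset.sum_fiberwise Finset.univ (fun x => π x) (fun x => z x * f (π x))]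
  refine Finset.sum_congr rfl fun y _ => ?_
  have h1 : ∑ᶠ x ∈ {x : G | π x = y}, z x = ∑ x ∈ Finset.univ.filter (fun x => π x = y), z x := by
    rw [finsum_mem_eq_finite_toFinset_sum _ (Set.toFinite {x : G | π x = y})]
    refine Finset.sum_congr ?_ fun _ _ => rfl
    ext x
    simp
  rw [h1, Finset.sum_mul]
  refine Finset.sum_congr rfl fun x hx => ?_
  rw [(Finset.mem_filter.1 hx).2]

theorem KLE_BC (hKIN : KIN_stmt) {p : ℕ} {M : Ideal (integralClosure ℤ ℂ)} {R : Subgroup G}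
    {π : G →* Gb} (hQ : Qn p R π) (Hb : Subgroup Gb)
    (S : Set (G → ℂ)) (hS : BC M (Hb.comap π) S) : BC M Hb (dn π Hb S) := by
  obtain ⟨k1, k2, k3, k4⟩ := hKIN p G Gb R π hQ
  refine ⟨fun f hf => hf.1, ?_⟩
  intro f hf f' hf' hcong
  refine ⟨hf', ?_⟩
  refine hS.closed (fun g => f (π g)) hf.2 (fun g => f' (π g)) (k2 Hb f' hf') ?_
  intro z hz hint
  have hcc : ∀ f₁ : Gb → ℂ, cc (fun g => f₁ (π g)) z = cc f₁ (fun y => ∑ᶠ x ∈ {x : G | π x = y}, z x) := by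
    intro f₁
    have h1 : f₁ (π 1) = f₁ 1 := by rw [map_one]
    show (∑ᶠ x, z x * f₁ (π x)) / f₁ (π 1) = _
    rw [h1, KLE_fib π z f₁]
    rfl
  rw [hcc f, hcc f']
  apply hcong
  · refine ⟨?_, ?_⟩
    · intro h hh y
      obtain ⟨h', rfl⟩ := hQ.sur h
      have hh' : h' ∈ Hb.comap π := hh
      symm
      refine finsum_mem_eq_of_bijOn (fun x => h' * x * h'⁻¹) ⟨?_, ?_, ?_⟩ ?_
      · intro x hx
        have hx' : π x = y := hx
        show π (h' * x * h'⁻¹) = π h' * y * (π h')⁻¹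
        rw [map_mul, map_mul, map_inv, hx']
      · intro a _ b _ hab
        have h1 : h' * a * h'⁻¹ = h' * b * h'⁻¹ := hab
        exact mul_left_cancel (mul_right_cancel h1)
      · intro x hx
        have hx' : π x = π h' * y * (π h')⁻¹ := hx
        refine ⟨h'⁻¹ * x * h', ?_, ?_⟩
        · show π (h'⁻¹ * x * h') = y
          rw [map_mul, map_mul, map_inv, hx']
          group
        · show h' * (h'⁻¹ * x * h') * h'⁻¹ = x
          group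
      · intro x _
        exact (hz.1 h' hh' x).symm
    · intro y hy
      have h1 : ∑ᶠ x ∈ {x : G | π x = y}, z x = ∑ᶠ x ∈ {x : G | π x = y}, (0 : ℂ) := by
        refine finsum_mem_congr rfl fun x hx => ?_
        apply hz.2
        intro h2
        have hx' : π x = y := hx
        have h3 : π x ∈ Hb := h2
        rw [hx'] at h3
        exact hy h3
      exact h1.trans (finsum_mem_zero _)
  · intro y
    rw [finsum_mem_eq_finite_toFinset_sum _ (Set.toFinite {x : G | π x = y})]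
    exact IsIntegral.sum _ fun x _ => hint x

end

theorem KLE (hKIN : KIN_stmt) (hKAV : KAV_stmt) (hKPR : KPR_stmt) (hKSU : KSU_stmt) (hKG1 : KG1_stmt)
    (hBR0 : BR0_stmt) (hSFC : SFC_stmt) (hLBN : LBN_stmt) (hB2 : B2_stmt) : KLE_stmt := by
  intro p M hM G Gb _ _ _ _ R π hQ Hb S hS
  have : Fact p.Prime := ⟨hM.pr⟩
  have hBC := KLE_BC hKIN hQ Hb S hS
  refine ⟨hBC, ?_⟩
  obtain ⟨hn, -, hN, -⟩ := hKG1 p G Gb R π hQ
  obtain ⟨hRH, hcard, -⟩ := hN Hb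
  have hR0 : (Nat.card R : ℂ) ≠ 0 := by exact_mod_cast Nat.card_pos.ne'
  have e1 := ((hLBN p M hM Gb Hb).1 (dn π Hb S) hBC).1
  have e2 := ((hLBN p M hM G (Hb.comap π)).1 S hS).1
  rw [KLE_tr hB2 p Hb (dn π Hb S) hBC.sub] at e1
  rw [KLE_tr hB2 p (Hb.comap π) S hS.sub] at e2
  have h1 : ∑ᶠ y ∈ {y : Gb | y ∈ Hb ∧ PReg p y}, Sf (dn π Hb S) y y =
      (Nat.card R : ℂ)⁻¹ * ∑ᶠ v ∈ {v : G | v ∈ Hb.comap π ∧ PReg p v}, Sf S v v := by
    rw [hKSU p G Gb R π hQ Hb (fun y => Sf (dn π Hb S) y y), mul_finsum_mem]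
    refine finsum_mem_congr rfl fun v hv => ?_
    have h2 := KLE_A3 hKIN hKAV hKPR hBR0 hSFC hB2 hM hQ Hb S hS hRH hn v hv.1 hv.2
    have h3 : ({r : G | r ∈ R ∧ PReg p (v * r)}.ncard : ℂ) ≠ 0 := by
      have h4 : 0 < {r : G | r ∈ R ∧ PReg p (v * r)}.ncard := by
        rw [Set.ncard_pos]
        exact ⟨1, R.one_mem, by rw [mul_one]; exact hv.2⟩
      exact_mod_cast h4.ne'
    field_simp
    linear_combination h2
  rw [h1] at e1
  have h5 : (ls p Hb (dn π Hb S) : ℂ) = (ls p (Hb.comap π) S : ℂ) := by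
    rw [e1, e2, hcard]
    push_cast
    rw [mul_inv]
    ring
  exact_mod_cast h5

end Pool.Agent.FI4
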