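import Pool.Agent.helper70.FI4.SpecK

/-!
# Project fi4 (MP_baa4d7_al), block K: row KRG
-/

set_option autoImplicit false

namespace Pool.Agent.FI4

open Pool.Agent.helper58.DC Pool.Agent.DI Pool.Agent.GR Pool.Agent.OB Pool.Agent.DR Pool.Agent.FI Pool.Agent.FI3

/-- casting an alternating sum over normal chains -/
theorem KRG_cast {G : Type} [Group G] [Finite G] (p : ℕ) (f : Finset (Subgroup G) → ℤ) :
    ((∑ᶠ C ∈ {C : Finset (Subgroup G) | NCh p ⊤ ⊥ C}, (-1) ^ (C.card + 1) * f C : ℤ) : ℂ) =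
      ∑ᶠ C ∈ {C : Finset (Subgroup G) | NCh p ⊤ ⊥ C}, (-1 : ℂ) ^ (C.card + 1) * (f C : ℂ) := by
  have hfin : ({C : Finset (Subgroup G) | NCh p ⊤ ⊥ C}).Finite := Set.toFinite _
  rw [finsum_mem_eq_finite_toFinset_sum _ hfin, finsum_mem_eq_finite_toFinset_sum _ hfin]
  push_cast
  rfl

theorem KRG (hKRB : KRB_stmt) (hFNO : FNO_stmt) (hLBN : LBN_stmt) : KRG_stmt := by
  intro p M hM G _ _ χ _
  have : Fact p.Prime := ⟨hM.pr⟩
  have h1 := hKRB p M hM G χ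
  rw [hFNO G p ⊤ ⊥ ⊤ _ IsPGroup.of_bot le_top, hFNO G p ⊤ ⊥ ⊤ _ IsPGroup.of_bot le_top] at h1
  simp only [top_inf_eq] at h1
  have h2 := congrArg (Int.cast : ℤ → ℂ) h1
  rw [KRG_cast p (fun C => (Nat.card (nrm C) : ℤ) * ((Blk M χ (nrm C)).ncard : ℤ)),
    KRG_cast p (fun C => (Nat.card (nrm C) : ℤ) * (lb p M χ (nrm C) : ℤ))] at h2
  push_cast at h2
  rw [h2]
  refine finsum_mem_congr rfl fun C _ => ?_
  rw [lb_eq_LL hLBN p M hM G (nrm C) χ]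

end Pool.Agent.FI4
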