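import Pool.Agent.helper59.FI4.SpecI

/-!
# Project fi4 (MP_baa4d7_al), block IND: row CJR
-/

set_option autoImplicit false

namespace Pool.Agent.FI4I

open Pool.Agent.helper58.DC Pool.Agent.DI Pool.Agent.GR Pool.Agent.OB Pool.Agent.DR Pool.Agent.FI Pool.Agent.FI3 Pool.Agent.FI4

section

variable {G : Type} [Group G]

theorem CJR_omega (χ : G → ℂ) (g x : G) : omega χ (g * x * g⁻¹) = omega χ x := by
  unfold omega
  have h : conjugatesOf (g * x * g⁻¹) = conjugatesOf x := by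
    rw [← isConj_iff_conjugatesOf_eq]
    exact (isConj_iff.2 ⟨g, rfl⟩ : IsConj x (g * x * g⁻¹)).symm
  rw [h]

theorem CJR_cent (hSYL : SYL_stmt) [Finite G] (p : ℕ) [Fact p.Prime] (g x : G) :
    Subgroup.centralizer ({g * x * g⁻¹} : Set G) = cjS g (Subgroup.centralizer ({x} : Set G)) ∧
      pp p (Subgroup.centralizer ({g * x * g⁻¹} : Set G)) = pp p (Subgroup.centralizer ({x} : Set G)) := by
  have h := ((hSYL p G).2.2.2.2.2.1 (⊤ : Subgroup G) x g (Subgroup.mem_top g))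
  unfold Cz at h
  simp only [top_inf_eq] at h
  exact h

theorem CJR_defAt (hSYL : SYL_stmt) [Finite G] {p : ℕ} {M : Ideal (integralClosure ℤ ℂ)} (hM : Setup p M)
    {χ : G → ℂ} {D : Subgroup G} {x : G} (h : DefAt p M χ D x) (g : G) :
    DefAt p M χ (cjS g D) (g * x * g⁻¹) := by
  have : Fact p.Prime := ⟨hM.pr⟩
  obtain ⟨h1, h2⟩ := CJR_cent hSYL p g x
  have hc : Nat.card (cjS g D) = Nat.card D := ((hSYL p G).2.2.2.2.1 D g).2
  refine ⟨?_, ?_, ?_, ?_, ?_, ?_⟩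
  · exact ((hSYL p G).2.2.2.2.2.2.2.2 x g).1 h.reg
  · rw [CJR_omega]
    exact h.ne
  · rw [h1]
    exact Subgroup.map_mono h.le
  · exact h.pgrp.map _
  · rw [hc, h2]
    exact h.card
  · intro y hy
    rw [hc]
    exact h.min y hy

end

theorem CJR (hTTC : TTC_stmt) (hCON : CON_stmt) (hFEQ : FEQ_stmt) (hSYL : SYL_stmt) : CJR_stmt := by
  intro p M hM G _ _ D x θ χ hRt g θ₁ hθ₁ hInd
  have hc : Nat.card (cjS g D) = Nat.card D :=
    (hFEQ G M g 1 D D D θ θ χ).2.1.2.2.2.2.2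
  have hRt1 : Rt p M (cjS g D) (g * x * g⁻¹) θ₁ χ := by
    refine ⟨hRt.chi, CJR_defAt hSYL hM hRt.dfa g, ?_, hθ₁, hInd⟩
    intro c hcD d hdD
    have hc1 := mem_cjS.1 hcD
    have hd1 := mem_cjS.1 hdD
    have h1 := hRt.com _ hc1 _ hd1
    have h2 : c * d = g * ((g⁻¹ * c * g) * (g⁻¹ * d * g)) * g⁻¹ := by group
    have h3 : d * c = g * ((g⁻¹ * d * g) * (g⁻¹ * c * g)) * g⁻¹ := by group
    rw [h2, h3, h1]
  refine ⟨hRt1, ?_⟩
  obtain ⟨h, hle, hSB⟩ := hCON p M hM G D x θ χ hRt (cjS g D) hRt1.dfa.pgrp θ₁ hθ₁ hInd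
  have hle' : cjS h (cjS g D) ≤ D := hle
  have hcard2 : Nat.card (cjS h (cjS g D)) = Nat.card D := by
    rw [← hc]
    exact (hFEQ G M h 1 (cjS g D) D D θ θ χ).2.1.2.2.2.2.2
  have hD : cjS h (cjS g D) = D := Subgroup.eq_of_le_of_card_ge hle' hcard2.ge
  have hSB' : SB M (cz (cjS h (cjS g D))) θ (cjF h θ₁) := hSB
  rw [hD] at hSB'
  have hθ' : cjF h θ₁ ∈ IrrOn (cz D) := by
    have h1 := (hFEQ G M h 1 (cjS g D) D (cz (cjS g D)) θ θ₁ χ).2.2.2.1.1 hθ₁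
    have h2 : cz (cjS h (cjS g D)) = cjS h (cz (cjS g D)) := (hFEQ G M h 1 (cjS g D) D D θ θ χ).2.1.1
    rw [← h2, hD] at h1
    exact h1
  obtain ⟨t1, t2⟩ := hTTC G M D
  have hTT : TT M D θ = TT M D (cjF h θ₁) := t1 θ hRt.th (cjF h θ₁) hθ' hSB'
  obtain ⟨-, t3, t4, -⟩ := t2 (cjF h θ₁) hθ' h⁻¹
  have e1 : cjS h⁻¹ D = cjS g D := by
    have h1 := (hFEQ G M h⁻¹ h (cjS g D) D D θ θ χ).1.1
    rw [hD, inv_mul_cancel] at h1
    rw [h1]
    exact (hFEQ G M h⁻¹ h (cjS g D) D D θ θ χ).1.2.2.1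
  have e2 : cjF h⁻¹ (cjF h θ₁) = θ₁ := by
    have h1 := (hFEQ G M h⁻¹ h D D D θ θ₁ χ).1.2.1
    rw [inv_mul_cancel] at h1
    rw [h1]
    exact (hFEQ G M h⁻¹ h D D D θ θ₁ χ).1.2.2.2
  rw [e1, e2] at t3 t4
  have hiI : iI M D (cjF h θ₁) = iI M D θ := by
    unfold iI
    rw [hTT]
  have hRG : RG M D (cjF h θ₁) = RG M D θ := by
    unfold RG
    rw [hTT]
  refine ⟨t3.trans hiI, ?_⟩
  intro hHyp
  unfold Hyp at hHyp ⊢
  rw [t3, hiI, t4, hRG, hc]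
  exact hHyp

end Pool.Agent.FI4I
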