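import Pool.Agent.helper12.FI4.SpecX
set_option autoImplicit false
namespace Pool.Agent.FI4
open Pool.Agent.helper58.DC Pool.Agent.DI Pool.Agent.GR Pool.Agent.OB Pool.Agent.DR Pool.Agent.FI Pool.Agent.FI3

theorem X7 (hX2 : X2_stmt) (hX6 : X6_stmt) (hDG2 : DG2_stmt) (hIOP : Pool.Agent.TZ.IOP_stmt)
    (hHR3 : HR3_stmt) (hFN4 : FN4_stmt) : X7_stmt := by
  intro p M hS G E A _ _ _ _ _ X hA hp hO D x θ χ hR hD hSt hSm b hb hC d
  have hfact : Fact p.Prime := ⟨hS.pr⟩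
  have h2 := hX2 p M hS G E A X hA hp χ hR.chi hSt D x hR.dfa b hb hC
  obtain ⟨η, hη, hI⟩ := hDG2 p M hS E b hb (D.map X.inc) (X.inc x) h2
  have hcom : ∀ c ∈ D.map X.inc, ∀ d ∈ D.map X.inc, c * d = d * c := by
    rintro _ ⟨c, hc, rfl⟩ _ ⟨d, hd, rfl⟩
    rw [← map_mul, hR.com c hc d hd, map_mul]
  have hR' : Rt p M (D.map X.inc) (X.inc x) η b := ⟨hb, h2, hcom, hη, hI⟩
  obtain ⟨h3, h4⟩ := hX6 p M hS G E A X hA D x θ χ hR hSt b hb hC η hη hI
  have hH : Hyp p M (D.map X.inc) η := by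
    rcases hSm with h | h
    · exact hHR3 p M hS E (D.map X.inc) (X.inc x) η b hR' (by omega)
    · have h5 : Nat.card (D.map X.inc) = Nat.card D :=
        Nat.card_congr (D.equivMapOfInjective X.inc X.inc_injective).toEquiv.symm
      unfold Hyp
      rw [h5]
      exact lt_of_le_of_lt (Nat.mul_le_mul_left 2 (Nat.mul_le_mul_right (Nat.card D) h3))
        (lt_of_lt_of_le h (Nat.mul_le_mul_left (p - 1) h4))
  have hne : D.map X.inc ≠ ⊥ := by
    intro h
    rw [Subgroup.map_eq_bot_iff_of_injective D X.inc_injective] at h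
    exact hD h
  exact hFN4 p M hS E (D.map X.inc) (X.inc x) η b hR' hH hne (hIOP G E A X p hp hO) d

end Pool.Agent.FI4
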